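import Pool.Agent.Lib.Pc979e5.Cubic

set_option autoImplicit false

open Polynomial

namespace Pool.Agent.Results.MP_c979e5_an.KoebeThree

/-- The class of polynomials `z + a_2 z ^ 2 + ... + a_N z ^ N`, `a_N ≠ 0`, with complex
coefficients, that are injective on the open unit disk. -/
def univalentPolys (N : ℕ) : Set (Polynomial ℂ) :=
  {p | p.natDegree = N ∧ p.coeff 0 = 0 ∧ p.coeff 1 = 1 ∧
    Set.InjOn (fun z => p.eval z) (Metric.ball (0 : ℂ) 1)}

/-- `r(P) = dist (0, ∂ P(𝔻))`. -/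
noncomputable def rad (p : Polynomial ℂ) : ℝ :=
  Metric.infDist 0 (frontier ((fun z => p.eval z) '' Metric.ball (0 : ℂ) 1))

/-- The Koebe radius `R_N` of degree `N`. -/
noncomputable def koebeRadius (N : ℕ) : ℝ := sInf (rad '' univalentPolys N)

/-- `P` is optimal in degree `N`. -/
def IsOptimal (N : ℕ) (p : Polynomial ℂ) : Prop :=
  p ∈ univalentPolys N ∧ rad p = koebeRadius N

/-- `F_N(z) = (1 / U_N'(c_N)) * ∑ U_{N-j+1}'(c_N) U_{j-1}(c_N) z ^ j`,
`c_N = cos (π / (N + 2))`. -/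
noncomputable def F (N : ℕ) (z : ℂ) : ℂ :=
  ∑ j ∈ Finset.Icc 1 N,
    (((Polynomial.derivative (Polynomial.Chebyshev.U ℝ ((N : ℤ) - (j : ℤ) + 1))).eval
          (Real.cos (Real.pi / ((N : ℝ) + 2))) *
        (Polynomial.Chebyshev.U ℝ ((j : ℤ) - 1)).eval
          (Real.cos (Real.pi / ((N : ℝ) + 2))) /
        (Polynomial.derivative (Polynomial.Chebyshev.U ℝ (N : ℤ))).eval
          (Real.cos (Real.pi / ((N : ℝ) + 2))) : ℝ) : ℂ) * z ^ j

open Pool.Agent.Lib.Pc979e5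

lemma P_mem : P ∈ univalentPolys 3 := by
  refine ⟨P_natDegree, P_coeff_zero, P_coeff_one, ?_⟩
  intro z hz w hw hzw
  rw [Metric.mem_ball, dist_zero_right] at hz hw
  exact P_inj hz.le hw.le hzw

lemma ζ_mem : P.eval ζ ∈ frontier ((fun z => P.eval z) '' Metric.ball (0 : ℂ) 1) := by
  have hcont : Continuous (fun z : ℂ => P.eval z) := P.continuous
  have hclos : P.eval ζ ∈ closure ((fun z => P.eval z) '' Metric.ball (0 : ℂ) 1) := by
    have h1 : ζ ∈ closure (Metric.ball (0 : ℂ) 1) := by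
      rw [closure_ball 0 one_ne_zero, mem_closedBall_zero_iff]
      exact norm_ζ.le
    exact image_closure_subset_closure_image hcont ⟨ζ, h1, rfl⟩
  refine ⟨hclos, ?_⟩
  intro hint
  obtain ⟨z, hz, hzζ⟩ := interior_subset hint
  rw [Metric.mem_ball, dist_zero_right] at hz
  have : z = ζ := P_inj hz.le norm_ζ.le hzζ
  rw [this, norm_ζ] at hz
  exact lt_irrefl _ hz

lemma rad_P : rad P ≤ ‖P.eval ζ‖ := by
  have h := Metric.infDist_le_dist_of_mem (x := (0 : ℂ)) ζ_mem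
  rwa [dist_zero_left] at h

lemma koebe_lt : koebeRadius 3 < 1 / (4 * Real.cos (Real.pi / 5) ^ 2) := by
  have h1 : koebeRadius 3 ≤ rad P := by
    apply csInf_le
    · refine ⟨0, ?_⟩
      rintro _ ⟨p, _, rfl⟩
      exact Metric.infDist_nonneg
    · exact ⟨P, P_mem, rfl⟩
  have h2 := norm_lt_radius
  have h3 : ((3 : ℕ) : ℝ) + 2 = 5 := by norm_num
  rw [h3] at h2
  exact lt_of_le_of_lt (h1.trans rad_P) h2

lemma U3' : (Polynomial.derivative (Polynomial.Chebyshev.U ℝ 3)).eval (Real.cos (Real.pi / 5))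
    = 24 * Real.cos (Real.pi / 5) ^ 2 - 4 := by
  have h : Polynomial.Chebyshev.U ℝ 3 = 8 * X ^ 3 - 4 * X := by
    have h1 := Polynomial.Chebyshev.U_add_two ℝ 1
    have h2 := Polynomial.Chebyshev.U_add_two ℝ 0
    norm_num at h1 h2
    rw [h1, h2]
    ring
  rw [h]
  simp [Polynomial.derivative_mul, Polynomial.derivative_pow]
  ring

lemma U2' : (Polynomial.derivative (Polynomial.Chebyshev.U ℝ 2)).eval (Real.cos (Real.pi / 5))
    = 8 * Real.cos (Real.pi / 5) := by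
  rw [Polynomial.Chebyshev.U_two]
  simp [Polynomial.derivative_mul, Polynomial.derivative_pow]
  ring

lemma U1' : (Polynomial.derivative (Polynomial.Chebyshev.U ℝ 1)).eval (Real.cos (Real.pi / 5))
    = 2 := by
  rw [Polynomial.Chebyshev.U_one]
  simp [Polynomial.derivative_mul]

lemma F3_eq (z : ℂ) : F 3 z = z + ((2 / Real.sqrt 5 : ℝ) : ℂ) * z ^ 2
    + (((1 - 1 / Real.sqrt 5) / 2 : ℝ) : ℂ) * z ^ 3 := by
  have h5 : Real.sqrt 5 ^ 2 = 5 := Real.sq_sqrt (by norm_num)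
  have h0 : 0 < Real.sqrt 5 := Real.sqrt_pos.mpr (by norm_num)
  unfold F
  have hI : Finset.Icc 1 3 = {1, 2, 3} := by decide
  rw [hI, Finset.sum_insert (by decide), Finset.sum_insert (by decide), Finset.sum_singleton]
  have e : ((3 : ℕ) : ℝ) + 2 = 5 := by norm_num
  rw [e]
  have e1 : ((3 : ℕ) : ℤ) - ((1 : ℕ) : ℤ) + 1 = 3 := by norm_num
  have e2 : ((3 : ℕ) : ℤ) - ((2 : ℕ) : ℤ) + 1 = 2 := by norm_num
  have e3 : ((3 : ℕ) : ℤ) - ((3 : ℕ) : ℤ) + 1 = 1 := by norm_num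
  have e4 : ((1 : ℕ) : ℤ) - 1 = 0 := by norm_num
  have e5 : ((2 : ℕ) : ℤ) - 1 = 1 := by norm_num
  have e6 : ((3 : ℕ) : ℤ) - 1 = 2 := by norm_num
  have e7 : ((3 : ℕ) : ℤ) = 3 := by norm_num
  rw [e1, e2, e3, e4, e5, e6, e7, U3', U2', U1', Polynomial.Chebyshev.U_zero,
    Polynomial.Chebyshev.U_one, Polynomial.Chebyshev.U_two]
  simp only [Polynomial.eval_one, Polynomial.eval_mul, Polynomial.eval_ofNat, Polynomial.eval_X,
    Polynomial.eval_sub, Polynomial.eval_pow]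
  rw [Real.cos_pi_div_five]
  have hd : (0 : ℝ) < 24 * ((1 + Real.sqrt 5) / 4) ^ 2 - 4 := by nlinarith
  have c1 : (24 * ((1 + Real.sqrt 5) / 4) ^ 2 - 4) * 1 / (24 * ((1 + Real.sqrt 5) / 4) ^ 2 - 4)
      = 1 := by
    rw [mul_one, div_self hd.ne']
  have c2 : 8 * ((1 + Real.sqrt 5) / 4) * (2 * ((1 + Real.sqrt 5) / 4))
      / (24 * ((1 + Real.sqrt 5) / 4) ^ 2 - 4) = 2 / Real.sqrt 5 := by
    rw [div_eq_div_iff hd.ne' h0.ne']
    nlinarith
  have c3 : 2 * (4 * ((1 + Real.sqrt 5) / 4) ^ 2 - 1)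
      / (24 * ((1 + Real.sqrt 5) / 4) ^ 2 - 4) = (1 - 1 / Real.sqrt 5) / 2 := by
    rw [div_eq_iff hd.ne']
    field_simp
    nlinarith
  rw [c1, c2, c3]
  simp
  ring

lemma F3_norm (z : ℂ) (hz : ‖z‖ = 1) : 1 / (4 * Real.cos (Real.pi / 5) ^ 2) ≤ ‖F 3 z‖ := by
  have h5 : Real.sqrt 5 ^ 2 = 5 := Real.sq_sqrt (by norm_num)
  have h0 : 0 < Real.sqrt 5 := Real.sqrt_pos.mpr (by norm_num)
  have h5u : Real.sqrt 5 < 2.2361 := by
    rw [Real.sqrt_lt' (by norm_num)]; norm_num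
  have h5l : 2.236 < Real.sqrt 5 := by
    rw [Real.lt_sqrt (by norm_num)]; norm_num
  have hv : 1 / (4 * Real.cos (Real.pi / 5) ^ 2) = (3 - Real.sqrt 5) / 2 := by
    have := radius_eq
    have h3 : ((3 : ℕ) : ℝ) + 2 = 5 := by norm_num
    rwa [h3] at this
  rw [hv]
  set a : ℝ := 2 / Real.sqrt 5 with ha
  set b : ℝ := (1 - 1 / Real.sqrt 5) / 2 with hb
  have ha' : a = 2 * Real.sqrt 5 / 5 := by rw [ha, div_eq_div_iff h0.ne' (by norm_num)]; nlinarith
  have hb' : b = (5 - Real.sqrt 5) / 10 := by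
    rw [hb]
    have : 1 / Real.sqrt 5 = Real.sqrt 5 / 5 := by
      rw [div_eq_div_iff h0.ne' (by norm_num)]; nlinarith
    rw [this]; ring
  have hval : 1 - a + b = (3 - Real.sqrt 5) / 2 := by rw [ha', hb']; ring
  have hz2 : z.re ^ 2 + z.im ^ 2 = 1 := by
    have := Complex.sq_norm z
    rw [hz, Complex.normSq_apply] at this
    nlinarith
  have hfac : F 3 z = z * (1 + (a : ℂ) * z + (b : ℂ) * z ^ 2) := by
    rw [F3_eq]; ring
  rw [hfac, norm_mul, hz, one_mul]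
  have hsq : ‖1 + (a : ℂ) * z + (b : ℂ) * z ^ 2‖ ^ 2 =
      (1 - a + b) ^ 2 + (z.re + 1) * (2 * a * (1 + b) - 4 * b * (1 - z.re)) := by
    rw [Complex.sq_norm, Complex.normSq_apply]
    have e1 : (1 + (a : ℂ) * z + (b : ℂ) * z ^ 2).re
        = 1 + a * z.re + b * (z.re ^ 2 - z.im ^ 2) := by
      simp [sq]
    have e2 : (1 + (a : ℂ) * z + (b : ℂ) * z ^ 2).im
        = a * z.im + b * (2 * z.re * z.im) := by
      simp only [sq, Complex.add_im, Complex.mul_im, Complex.mul_re, Complex.one_im,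
        Complex.ofReal_re, Complex.ofReal_im]
      ring
    rw [e1, e2]
    have e3 : z.im ^ 2 = 1 - z.re ^ 2 := by linarith
    have : (1 + a * z.re + b * (z.re ^ 2 - z.im ^ 2)) * (1 + a * z.re + b * (z.re ^ 2 - z.im ^ 2))
        + (a * z.im + b * (2 * z.re * z.im)) * (a * z.im + b * (2 * z.re * z.im))
        = (1 + a * z.re + b * (z.re ^ 2 - z.im ^ 2)) ^ 2
          + (a + 2 * b * z.re) ^ 2 * z.im ^ 2 := by ring
    rw [this, e3]
    ring
  have hre1 : -1 ≤ z.re := by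
    have := (abs_le.mp (Complex.abs_re_le_norm z)).1
    rw [hz] at this
    exact this
  have hpos : 0 ≤ (z.re + 1) * (2 * a * (1 + b) - 4 * b * (1 - z.re)) := by
    apply mul_nonneg (by linarith)
    have hb0 : 0 < b := by rw [hb']; linarith
    have h9 : 0 ≤ 2 * a * (1 + b) - 8 * b := by
      rw [ha', hb']
      nlinarith
    nlinarith
  apply le_of_sq_le_sq _ (norm_nonneg _)
  rw [hsq, ← hval]
  linarith

lemma rad_ge {p : Polynomial ℂ} (hp : p ∈ univalentPolys 3) {d : ℝ}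
    (hd : ∀ z : ℂ, ‖z‖ = 1 → d ≤ ‖p.eval z‖) : d ≤ rad p := by
  set S : Set ℂ := (fun z => p.eval z) '' Metric.ball (0 : ℂ) 1 with hS
  have hcont : Continuous (fun z : ℂ => p.eval z) := p.continuous
  have hinj := hp.2.2.2
  have hopen : IsOpen S := by
    have han : AnalyticOnNhd ℂ (fun z : ℂ => p.eval z) (Metric.ball (0 : ℂ) 1) := by
      intro z _
      exact (Polynomial.differentiable p).analyticAt z
    rcases han.is_constant_or_isOpen (convex_ball (0 : ℂ) 1).isPreconnected with h | h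
    · obtain ⟨w, hw⟩ := h
      exfalso
      have h0 : (0 : ℂ) ∈ Metric.ball (0 : ℂ) 1 := Metric.mem_ball_self one_pos
      have h1 : (1 / 2 : ℂ) ∈ Metric.ball (0 : ℂ) 1 := by
        rw [mem_ball_zero_iff]; norm_num
      have := hinj h0 h1 (by
        have := (hw 0 h0).trans (hw _ h1).symm
        exact this)
      norm_num at this
    · exact h _ subset_rfl Metric.isOpen_ball
  have hbdd : S ⊆ (fun z => p.eval z) '' Metric.closedBall (0 : ℂ) 1 :=
    Set.image_mono Metric.ball_subset_closedBall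
  have hcomp : IsCompact ((fun z => p.eval z) '' Metric.closedBall (0 : ℂ) 1) :=
    (isCompact_closedBall 0 1).image hcont
  have hfr : (frontier S).Nonempty := by
    rw [nonempty_frontier_iff]
    refine ⟨⟨_, ⟨0, Metric.mem_ball_self one_pos, rfl⟩⟩, ?_⟩
    intro huniv
    have : Bornology.IsBounded (Set.univ : Set ℂ) := by
      rw [← huniv]
      exact hcomp.isBounded.subset hbdd
    exact NormedSpace.unbounded_univ ℂ ℂ this
  unfold rad
  rw [Metric.le_infDist hfr]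
  intro y hy
  have h1 : y ∈ (fun z => p.eval z) '' Metric.closedBall (0 : ℂ) 1 :=
    closure_minimal hbdd hcomp.isClosed hy.1
  obtain ⟨z, hz, rfl⟩ := h1
  rw [mem_closedBall_zero_iff] at hz
  rcases hz.lt_or_eq with h | h
  · exfalso
    apply hy.2
    rw [hopen.interior_eq]
    exact ⟨z, by rwa [mem_ball_zero_iff], rfl⟩
  · rw [dist_zero_left]
    exact hd z h

/-- At `N = 3` the Koebe radius over complex coefficients is smaller than the conjectured value
`1 / (4 cos (π / 5) ^ 2)`, and no rotation of `F_3` is optimal. -/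
theorem result :
    koebeRadius 3 < 1 / (4 * Real.cos (Real.pi / 5) ^ 2) ∧
    ∀ p : Polynomial ℂ,
      (∃ α : ℝ, ∀ z : ℂ, p.eval z =
        Complex.exp (-((α : ℂ) * Complex.I)) * F 3 (z * Complex.exp ((α : ℂ) * Complex.I))) →
      ¬ IsOptimal 3 p := by
  refine ⟨koebe_lt, ?_⟩
  rintro p ⟨α, hα⟩ ⟨hp, hopt⟩
  have h1 : 1 / (4 * Real.cos (Real.pi / 5) ^ 2) ≤ rad p := by
    apply rad_ge hp
    intro z hz
    rw [hα, norm_mul]
    have e1 : ‖Complex.exp (-((α : ℂ) * Complex.I))‖ = 1 := by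
      rw [← neg_mul, ← Complex.ofReal_neg, Complex.norm_exp_ofReal_mul_I]
    rw [e1, one_mul]
    apply F3_norm
    rw [norm_mul, hz, Complex.norm_exp_ofReal_mul_I, one_mul]
  have h2 := koebe_lt
  rw [← hopt] at h2
  linarith

end Pool.Agent.Results.MP_c979e5_an.KoebeThree
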